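import Pool.Agent.Lib.MP_7fdcdd_gt.BB.CKT
import Pool.Agent.Lib.MP_7fdcdd_gt.BB.CLT

namespace Pool.Agent.Results.MP_7fdcdd_gt.Full

open Pool.Agent.Lib.MP_7fdcdd_gt.H77 Pool.Agent.Lib.MP_7fdcdd_gt.BB

/-- The conjecture of Fejes Toth: tetrahedra minimise the relative volume of the kernel. -/
theorem result (S : Finset (Fin 3 → ℝ)) (hS : affineSpan ℝ (S : Set (Fin 3 → ℝ)) = ⊤)
    (T : Fin 4 → (Fin 3 → ℝ)) (hT : AffineIndependent ℝ T) :
    rho (convexHull ℝ (Set.range T)) ≤ rho (convexHull ℝ (S : Set (Fin 3 → ℝ))) :=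
  of_goals (p := 3240) (q := 10000) (p' := 2323) (q' := 10000) (by norm_num) (by norm_num)
    (by norm_num) (by norm_num) (by norm_num) (by norm_num) CK.co.goal CL.co.goal S hS T hT

end Pool.Agent.Results.MP_7fdcdd_gt.Full
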